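import Pool.Agent.Helper7.DS.Defs

/-!
# CNT: the counting step
-/

namespace Pool.Agent.Helper9.DS

open Pool.Agent.Helper7.DS

theorem exists_minimal {n : ℕ} (F : Finset (Finset (Fin n))) (T : Finset (Fin n))
    (h : ∃ C ∈ F, C ⊆ T) : ∃ M ∈ F, M ⊆ T ∧ ∀ C ∈ F, C ⊆ M → C = M := by
  classical
  have h0 : (F.filter (fun C => C ⊆ T)).Nonempty := by
    obtain ⟨C, h1, h2⟩ := h
    exact ⟨C, Finset.mem_filter.2 ⟨h1, h2⟩⟩
  obtain ⟨M, hM, hmin⟩ := Finset.exists_min_image _ Finset.card h0
  rw [Finset.mem_filter] at hM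
  refine ⟨M, hM.1, hM.2, ?_⟩
  intro C hC hCM
  refine Finset.eq_of_subset_of_card_le hCM ?_
  exact hmin C (Finset.mem_filter.2 ⟨hC, hCM.trans hM.2⟩)

theorem bot_of_no_member {n : ℕ} {F : Finset (Finset (Fin n))} (hF : Sat F) {T : Finset (Fin n)}
    (h : ∀ C ∈ F, ¬ C ⊆ T) : Bot F T := by
  have hT : T ∉ F := fun h' => h T h' (Finset.Subset.refl T)
  rcases hF.sat T hT with h1 | h1 | h1
  · exact h1
  · obtain ⟨Z, hZ, X, hX, W, hW, h2, -⟩ := h1
    exact absurd h2 (h Z hZ)
  · obtain ⟨Z, hZ, X, hX, Y, hY, h2, h3, h4, -⟩ := h1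
    exact absurd h4 (h X hX)

theorem CNT_thm : S_CNT := by
  classical
  intro n F hF S u hS hu hA hmin
  -- the minimal members
  have hM : ∀ w : Fin n, ∃ M, w ∉ S → (M ∈ F ∧ M ⊆ insert w S ∧ ∀ C ∈ F, C ⊆ M → C = M) := by
    intro w
    by_cases hw : w ∈ S
    · exact ⟨∅, fun h => absurd hw h⟩
    · obtain ⟨M, h1, h2, h3⟩ := exists_minimal F (insert w S) (hS.2 w hw)
      exact ⟨M, fun _ => ⟨h1, h2, h3⟩⟩
  choose M hM using hM
  have hMmem : ∀ w, w ∉ S → w ∈ M w := by
    intro w hw
    by_contra h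
    obtain ⟨h1, h2, -⟩ := hM w hw
    refine hS.1 _ h1 ?_
    intro x hx
    rcases Finset.mem_insert.1 (h2 hx) with h3 | h3
    · subst h3
      exact absurd hx h
    · exact h3
  have hMu : M u = insert u S := by
    obtain ⟨h1, h2, -⟩ := hM u hu
    exact hmin _ h1 h2
  -- the sides
  have hX : ∀ i : Fin n, ∃ X W, i ∈ S → (X ∈ F ∧ W ∈ F ∧ (insert u S).erase i ⊆ X ∧ i ∉ X ∧
      X ⊆ W ∧ X ≠ W) := by
    intro i
    by_cases hi : i ∈ S
    swap
    · exact ⟨∅, ∅, fun h => absurd h hi⟩
    have hno : ∀ C ∈ F, ¬ C ⊆ (insert u S).erase i := by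
      intro C hC hsub
      have h1 := hmin C hC (hsub.trans (Finset.erase_subset _ _))
      have h2 : i ∈ C := by
        rw [h1]
        exact Finset.mem_insert_of_mem hi
      exact absurd (hsub h2) (Finset.notMem_erase _ _)
    obtain ⟨X, hX, Y, hY, W, hW, h1, h2, h3, h4, h5, h6⟩ := bot_of_no_member hF hno
    by_cases hiX : i ∈ X
    · have hiY : i ∉ Y := by
        intro hiY
        have h7 : ∀ Q : Finset (Fin n), (insert u S).erase i ⊆ Q → i ∈ Q → insert u S ⊆ Q := by
          intro Q hQ hiQ x hx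
          by_cases hxi : x = i
          · rw [hxi]
            exact hiQ
          · exact hQ (Finset.mem_erase.2 ⟨hxi, hx⟩)
        rcases hF.free _ hA _ hX _ hY _ hW (h7 X h1 hiX) (h7 Y h2 hiY) h3 h4 with h | h
        · exact h5 h
        · exact h6 h
      refine ⟨Y, W, fun _ => ⟨hY, hW, h2, hiY, h4, ?_⟩⟩
      intro h
      exact h5 (h ▸ h3)
    · refine ⟨X, W, fun _ => ⟨hX, hW, h1, hiX, h3, ?_⟩⟩
      intro h
      exact h6 (h ▸ h4)
  choose X W hX using hX
  -- the top
  obtain ⟨P, hP, Q, hQ, V, hV, hp1, hp2, hp3, hp4, hp5, hp6⟩ := bot_of_no_member hF hS.1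
  obtain ⟨p, hpP, hpQ⟩ := Finset.not_subset.1 hp5
  obtain ⟨q, hqQ, hqP⟩ := Finset.not_subset.1 hp6
  have hpS : p ∉ S := fun h => hpQ (hp2 h)
  have hqS : q ∉ S := fun h => hqP (hp1 h)
  have hpq : p ≠ q := fun h => hpQ (h ▸ hqQ)
  have hSV : S ⊆ V := hp1.trans hp3
  have huX : ∀ i ∈ S, u ∈ X i := by
    intro i hi
    refine (hX i hi).2.2.1 (Finset.mem_erase.2 ⟨?_, Finset.mem_insert_self _ _⟩)
    intro h
    exact hu (h ▸ hi)
  have hjX : ∀ i ∈ S, ∀ j ∈ S, j ≠ i → j ∈ X i := by
    intro i hi j hj hji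
    exact (hX i hi).2.2.1 (Finset.mem_erase.2 ⟨hji, Finset.mem_insert_of_mem hj⟩)
  have hVM : ∀ w, w ∉ S → V ≠ M w := by
    intro w hw h
    have h1 := (hM w hw).2.1
    rw [← h] at h1
    have h2 : p = w := by
      rcases Finset.mem_insert.1 (h1 (hp3 hpP)) with h3 | h3
      · exact h3
      · exact absurd h3 hpS
    have h3 : q = w := by
      rcases Finset.mem_insert.1 (h1 (hp4 hqQ)) with h4 | h4
      · exact h4
      · exact absurd h4 hqS
    exact hpq (h2.trans h3.symm)
  have hVX : ∀ i ∈ S, V ≠ X i := by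
    intro i hi h
    exact (hX i hi).2.2.2.1 (h ▸ hSV hi)
  have hXM : ∀ i ∈ S, ∀ w, w ∉ S → X i ≠ M w := by
    intro i hi w hw h
    have h1 := huX i hi
    rw [h] at h1
    have h2 : u = w := by
      rcases Finset.mem_insert.1 ((hM w hw).2.1 h1) with h3 | h3
      · exact h3
      · exact absurd h3 hu
    subst h2
    rw [hMu] at h
    exact (hX i hi).2.2.2.1 (h ▸ Finset.mem_insert_of_mem hi)
  -- the injection
  let g : Option (Fin n) → Finset (Fin n) := fun o =>
    match o with
    | none => V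
    | some w => if w ∈ S then X w else M w
  have gS : ∀ w ∈ S, g (some w) = X w := fun w hw => if_pos hw
  have gN : ∀ w, w ∉ S → g (some w) = M w := fun w hw => if_neg hw
  have gF : ∀ o, g o ∈ F := by
    intro o
    cases o with
    | none => exact hV
    | some w =>
      by_cases hw : w ∈ S
      · rw [gS w hw]
        exact (hX w hw).1
      · rw [gN w hw]
        exact (hM w hw).1
  have ginj : Function.Injective g := by
    have key : ∀ w w', g (some w) = g (some w') → w = w' := by
      intro w w' h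
      by_cases hw : w ∈ S
      · by_cases hw' : w' ∈ S
        · rw [gS w hw, gS w' hw'] at h
          by_contra hne
          have h1 := hjX w hw w' hw' (fun h2 => hne h2.symm)
          rw [h] at h1
          exact (hX w' hw').2.2.2.1 h1
        · rw [gS w hw, gN w' hw'] at h
          exact absurd h (hXM w hw w' hw')
      · by_cases hw' : w' ∈ S
        · rw [gN w hw, gS w' hw'] at h
          exact absurd h.symm (hXM w' hw' w hw)
        · rw [gN w hw, gN w' hw'] at h
          have h1 := hMmem w hw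
          rw [h] at h1
          rcases Finset.mem_insert.1 ((hM w' hw').2.1 h1) with h3 | h3
          · exact h3
          · exact absurd h3 hw
    have key2 : ∀ w, g none ≠ g (some w) := by
      intro w
      by_cases hw : w ∈ S
      · rw [gS w hw]
        exact hVX w hw
      · rw [gN w hw]
        exact hVM w hw
    intro o o' h
    cases o with
    | none =>
      cases o' with
      | none => rfl
      | some w' => exact absurd h (key2 w')
    | some w =>
      cases o' with
      | none => exact absurd h.symm (key2 w)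
      | some w' => rw [key w w' h]
  by_contra hcard
  have hcard' : F.card ≤ n + 1 := by omega
  have himg : Finset.univ.image g = F := by
    refine Finset.eq_of_subset_of_card_le ?_ ?_
    · intro C hC
      obtain ⟨o, -, rfl⟩ := Finset.mem_image.1 hC
      exact gF o
    · rw [Finset.card_image_of_injective _ ginj, Finset.card_univ, Fintype.card_option,
        Fintype.card_fin]
      exact hcard'
  have hcl : ∀ C ∈ F, C = V ∨ (∃ i ∈ S, C = X i) ∨ ∃ w, w ∉ S ∧ C = M w := by
    intro C hC
    rw [← himg] at hC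
    obtain ⟨o, -, rfl⟩ := Finset.mem_image.1 hC
    cases o with
    | none => exact Or.inl rfl
    | some w =>
      by_cases hw : w ∈ S
      · exact Or.inr (Or.inl ⟨w, hw, gS w hw⟩)
      · exact Or.inr (Or.inr ⟨w, hw, gN w hw⟩)
  have hXV : ∀ i ∈ S, X i ⊆ V := by
    intro i hi
    obtain ⟨h1, h2, h3, h4, h5, h6⟩ := hX i hi
    rcases hcl _ h2 with h | ⟨j, hj, h⟩ | ⟨w, hw, h⟩
    · rw [← h]
      exact h5
    · exfalso
      by_cases hji : j = i
      · subst hji
        exact h6 h.symm
      · have h7 := h5 (hjX i hi j hj hji)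
        rw [h] at h7
        exact (hX j hj).2.2.2.1 h7
    · exfalso
      have h7 := h5 (huX i hi)
      rw [h] at h7
      have h8 : u = w := by
        rcases Finset.mem_insert.1 ((hM w hw).2.1 h7) with h9 | h9
        · exact h9
        · exact absurd h9 hu
      subst h8
      rw [h, hMu] at h5
      have h9 := hmin _ h1 h5
      rw [h9] at h4
      exact h4 (Finset.mem_insert_of_mem hi)
  -- the top of a diamond
  rcases hF.sat _ hF.univ with h | h | h
  · obtain ⟨X', -, Y', -, W', -, h1, h2, -, -, h5, -⟩ := h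
    exact h5 (Finset.Subset.trans (Finset.subset_univ _) h2)
  · obtain ⟨Z', -, X', -, W', -, -, -, -, -, h5, -⟩ := h
    exact h5 (Finset.subset_univ _)
  · obtain ⟨Z, hZ, X', hX', Y', hY', h1, h2, -, -, h5, h6⟩ := h
    have hx : X' = V ∨ ∃ i ∈ S, X' = X i := by
      rcases hcl _ hX' with h | h | ⟨w, hw, h⟩
      · exact Or.inl h
      · exact Or.inr h
      · exfalso
        have h7 := (hM w hw).2.2 Z hZ (h ▸ h1)
        exact h5 (by rw [h, ← h7]; exact h2)
    have hy : Y' = V ∨ ∃ i ∈ S, Y' = X i := by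
      rcases hcl _ hY' with h | h | ⟨w, hw, h⟩
      · exact Or.inl h
      · exact Or.inr h
      · exfalso
        have h7 := (hM w hw).2.2 Z hZ (h ▸ h2)
        exact h6 (by rw [h, ← h7]; exact h1)
    have hxV : X' ⊆ V := by
      rcases hx with h | ⟨i, hi, h⟩
      · rw [h]
      · rw [h]
        exact hXV i hi
    have hyV : Y' ⊆ V := by
      rcases hy with h | ⟨i, hi, h⟩
      · rw [h]
      · rw [h]
        exact hXV i hi
    rcases hF.free _ hZ _ hX' _ hY' _ hV h1 h2 hxV hyV with h | h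
    · exact h5 h
    · exact h6 h

end Pool.Agent.Helper9.DS
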