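import Pool.Agent.Helper7.DS.Defs

/-!
# COMPL: the family of complements
-/

namespace Pool.Agent.Helper9.DS

open Pool.Agent.Helper7.DS

theorem COMPL_thm : S_COMPL := by
  intro n F hF
  have hmem : ∀ C : Finset (Fin n), C ∈ F.image compl ↔ Cᶜ ∈ F := by
    intro C
    rw [Finset.mem_image]
    constructor
    · rintro ⟨D, hD, rfl⟩
      rwa [compl_compl]
    · intro h
      exact ⟨Cᶜ, h, compl_compl C⟩
  have hmem' : ∀ C ∈ F, Cᶜ ∈ F.image compl := by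
    intro C hC
    rw [hmem, compl_compl]
    exact hC
  have hs : ∀ A B : Finset (Fin n), A ⊆ B → Bᶜ ⊆ Aᶜ := fun A B h =>
    Finset.compl_subset_compl.2 h
  have hs' : ∀ A B : Finset (Fin n), ¬ A ⊆ B → ¬ Bᶜ ⊆ Aᶜ := fun A B h h' =>
    h (Finset.compl_subset_compl.1 h')
  have hl : ∀ A B : Finset (Fin n), Aᶜ ⊆ B → Bᶜ ⊆ A := by
    intro A B h
    have := hs _ _ h
    rwa [compl_compl] at this
  have hr : ∀ A B : Finset (Fin n), A ⊆ Bᶜ → B ⊆ Aᶜ := by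
    intro A B h
    have := hs _ _ h
    rwa [compl_compl] at this
  refine ⟨?_, ?_, ?_, ?_⟩
  · intro Z hZ X hX Y hY W hW h1 h2 h3 h4
    rw [hmem] at hZ hX hY hW
    rcases hF.free _ hW _ hX _ hY _ hZ (hs _ _ h3) (hs _ _ h4) (hs _ _ h1) (hs _ _ h2) with h | h
    · exact Or.inr (Finset.compl_subset_compl.1 h)
    · exact Or.inl (Finset.compl_subset_compl.1 h)
  · intro S hS
    rw [hmem] at hS
    rcases hF.sat _ hS with h | h | h
    · obtain ⟨X, hX, Y, hY, W, hW, h1, h2, h3, h4, h5, h6⟩ := h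
      right; right
      exact ⟨Wᶜ, hmem' _ hW, Xᶜ, hmem' _ hX, Yᶜ, hmem' _ hY, hs _ _ h3, hs _ _ h4,
        hl _ _ h1, hl _ _ h2, hs' _ _ h6, hs' _ _ h5⟩
    · obtain ⟨Z, hZ, X, hX, W, hW, h1, h2, h3, h4, h5, h6⟩ := h
      right; left
      refine ⟨Wᶜ, hmem' _ hW, Xᶜ, hmem' _ hX, Zᶜ, hmem' _ hZ, hl _ _ h3, hs _ _ h4,
        hr _ _ h1, hs _ _ h2, ?_, ?_⟩
      · intro h
        exact h6 (hl _ _ h)
      · intro h
        exact h5 (hr _ _ h)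
    · obtain ⟨Z, hZ, X, hX, Y, hY, h1, h2, h3, h4, h5, h6⟩ := h
      left
      exact ⟨Xᶜ, hmem' _ hX, Yᶜ, hmem' _ hY, Zᶜ, hmem' _ hZ, hr _ _ h3, hr _ _ h4,
        hs _ _ h1, hs _ _ h2, hs' _ _ h6, hs' _ _ h5⟩
  · rw [hmem, Finset.compl_empty]
    exact hF.univ
  · rw [hmem, Finset.compl_univ]
    exact hF.empty

end Pool.Agent.Helper9.DS
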